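import Pool.Agent.J4H20.TR.Stm

set_option autoImplicit false

/-! # Project TR2, (R1): the square root with a parameter -/

namespace Pool.Agent.J4H19.TR

open Polynomial Pool.Agent.J4H20.TR

/-- every monic polynomial of even degree is a square plus a remainder of small degree -/
theorem sqrt_step {R : Type} [CommRing R] [Nontrivial R] (t : R) (ht : 2 * t = 1) (n : ℕ) (F : R[X])
    (hF : F.Monic) (hd : F.natDegree = 2 * n) (m : ℕ) (hm : m ≤ n) :
    ∃ G : R[X], G.Monic ∧ G.natDegree = n ∧ ∀ k, 2 * n - m ≤ k → (F - G ^ 2).coeff k = 0 := by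
  induction m with
  | zero =>
    refine ⟨X ^ n, monic_X_pow n, natDegree_X_pow n, fun k hk => ?_⟩
    rw [Nat.sub_zero] at hk
    rw [coeff_sub, ← pow_mul, mul_comm n 2, coeff_X_pow]
    rcases hk.eq_or_lt with h | h
    · rw [← h, if_pos rfl, ← hd]
      have : F.coeff F.natDegree = 1 := hF
      rw [this, sub_self]
    · rw [if_neg (by omega), coeff_eq_zero_of_natDegree_lt (by omega), sub_zero]
  | succ m ih =>
    obtain ⟨G, hG, hGn, hc⟩ := ih (by omega)
    obtain ⟨e, he⟩ : ∃ e, n = m + 1 + e := ⟨n - (m + 1), by omega⟩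
    set c := (F - G ^ 2).coeff (n + e) with hcd
    have hdeg : (C (t * c) * X ^ e : R[X]).natDegree < G.natDegree := by
      refine lt_of_le_of_lt (natDegree_C_mul_X_pow_le _ _) ?_
      omega
    refine ⟨G + C (t * c) * X ^ e, hG.add_of_left (degree_lt_degree hdeg), ?_, fun k hk => ?_⟩
    · rw [natDegree_add_eq_left_of_natDegree_lt hdeg, hGn]
    · have h1 : F - (G + C (t * c) * X ^ e) ^ 2 = (F - G ^ 2) - C c * (G * X ^ e)
          - C (t * c * (t * c)) * X ^ (2 * e) := by
        have h2 : (C c : R[X]) = C (2 * t) * C c := by rw [ht, C_1, one_mul]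
        rw [h2]
        simp only [C_mul, map_ofNat]
        ring
      rw [h1, coeff_sub, coeff_sub, coeff_C_mul, coeff_C_mul, coeff_mul_X_pow', coeff_X_pow,
        if_neg (by omega : ¬ k = 2 * e), mul_zero, sub_zero, if_pos (by omega : e ≤ k)]
      rcases Nat.lt_or_ge k (2 * n - m) with h | h
      · have h3 : k = n + e := by omega
        have h4 : G.coeff (k - e) = 1 := by
          rw [h3, Nat.add_sub_cancel, ← hGn]
          exact hG
        rw [h4, mul_one, h3, ← hcd, sub_self]
      · rw [hc k h, coeff_eq_zero_of_natDegree_lt (by omega : G.natDegree < k - e), mul_zero,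
          sub_zero]

theorem sum_coeff (n : ℕ) (c : ℕ → ℚ) (k : ℕ) :
    (∑ j : Fin n, C (c j) * X ^ (j : ℕ) : ℚ[X]).coeff k = if k < n then c k else 0 := by
  rw [Fin.sum_univ_eq_sum_range (fun j => (C (c j) * X ^ j : ℚ[X])) n, finsetSum_coeff]
  simp only [coeff_C_mul, coeff_X_pow, mul_ite, mul_one, mul_zero]
  rw [Finset.sum_ite_eq (Finset.range n) k]
  simp only [Finset.mem_range]

/-- (R1) -/
theorem t_R1 : S_R1 := by
  intro n a
  set F1 : ℚ[X][X] := ∏ i, (X - C (C (a i : ℚ))) with hF1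
  set F2 : ℚ[X][X] := ∏ i, (X - C (C (a i : ℚ) + X)) with hF2
  have hm1 : F1.Monic := monic_prod_of_monic _ _ fun i _ => monic_X_sub_C _
  have hm2 : F2.Monic := monic_prod_of_monic _ _ fun i _ => monic_X_sub_C _
  have hd1 : F1.natDegree = n := by
    rw [hF1, natDegree_prod_of_monic _ _ fun i _ => monic_X_sub_C _]
    simp only [natDegree_X_sub_C]
    simp
  have hd2 : F2.natDegree = n := by
    rw [hF2, natDegree_prod_of_monic _ _ fun i _ => monic_X_sub_C _]
    simp only [natDegree_X_sub_C]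
    simp
  have hd : (F1 * F2).natDegree = 2 * n := by
    rw [hm1.natDegree_mul hm2, hd1, hd2]
    ring
  have ht : (2 : ℚ[X]) * C (1 / 2) = 1 := by
    have : (2 : ℚ[X]) = C 2 := rfl
    rw [this, ← C_mul]
    norm_num
  obtain ⟨G, hG, hGn, hc⟩ := sqrt_step (C (1 / 2)) ht n (F1 * F2) (hm1.mul hm2) hd n le_rfl
  have hc' : ∀ k, n ≤ k → (F1 * F2 - G ^ 2).coeff k = 0 := fun k hk => hc k (by omega)
  have hmapF : ∀ ε : ℚ, (F1 * F2).map (evalRingHom ε)
      = (∏ i, (X - C (a i : ℚ))) * ∏ i, (X - C ((a i : ℚ) + ε)) := by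
    intro ε
    rw [Polynomial.map_mul, hF1, hF2, Polynomial.map_prod, Polynomial.map_prod]
    congr 1
    · refine Finset.prod_congr rfl fun i _ => ?_
      simp
    · refine Finset.prod_congr rfl fun i _ => ?_
      rw [Polynomial.map_sub, map_X, map_C]
      simp
  have hmapG : ∀ ε : ℚ, G.map (evalRingHom ε)
      = X ^ n + ∑ j : Fin n, C ((G.coeff (j : ℕ)).eval ε) * X ^ (j : ℕ) := by
    intro ε
    ext k
    rw [coeff_map, coeff_add, coeff_X_pow, sum_coeff n (fun j => (G.coeff j).eval ε), coe_evalRingHom]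
    rcases Nat.lt_trichotomy k n with h | h | h
    · rw [if_neg (by omega), if_pos h, zero_add]
    · rw [if_pos h, if_neg (by omega), add_zero, h, ← hGn]
      have : G.coeff G.natDegree = 1 := hG
      rw [this, eval_one]
    · rw [if_neg (by omega), if_neg (by omega), coeff_eq_zero_of_natDegree_lt (by omega), eval_zero,
        add_zero]
  have hmapR : ∀ ε : ℚ, (F1 * F2 - G ^ 2).map (evalRingHom ε)
      = ∑ j : Fin n, C (((F1 * F2 - G ^ 2).coeff (j : ℕ)).eval ε) * X ^ (j : ℕ) := by
    intro ε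
    ext k
    rw [coeff_map, sum_coeff n (fun j => ((F1 * F2 - G ^ 2).coeff j).eval ε), coe_evalRingHom]
    split_ifs with h
    · rfl
    · rw [hc' k (by omega), eval_zero]
  have hall : ∀ ε : ℚ, (∏ i, (X - C (a i : ℚ))) * ∏ i, (X - C ((a i : ℚ) + ε))
      = (X ^ n + ∑ j : Fin n, C ((G.coeff (j : ℕ)).eval ε) * X ^ (j : ℕ)) ^ 2
        + ∑ j : Fin n, C (((F1 * F2 - G ^ 2).coeff (j : ℕ)).eval ε) * X ^ (j : ℕ) := by
    intro ε
    rw [← hmapF, ← hmapG, ← hmapR, ← Polynomial.map_pow, ← Polynomial.map_add]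
    congr 1
    ring
  set A : ℚ[X] := ∏ i, (X - C (a i : ℚ)) with hA
  have hAm : A.Monic := monic_prod_of_monic _ _ fun i _ => monic_X_sub_C _
  have hAn : A.natDegree = n := by
    rw [hA, natDegree_prod_of_monic _ _ fun i _ => monic_X_sub_C _]
    simp only [natDegree_X_sub_C]
    simp
  have h0 := hall 0
  have e1 : (∏ i, (X - C ((a i : ℚ) + 0)) : ℚ[X]) = A :=
    Finset.prod_congr rfl fun i _ => by rw [add_zero]
  rw [e1, ← hmapG, ← hmapR] at h0
  set G0 := G.map (evalRingHom (0 : ℚ)) with hG0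
  set r0 := (F1 * F2 - G ^ 2).map (evalRingHom (0 : ℚ)) with hr0
  have hG0m : G0.Monic := hG.map _
  have hG0n : G0.natDegree = n := by rw [hG0, hG.natDegree_map, hGn]
  have hr0d : ∀ k, n ≤ k → r0.coeff k = 0 := by
    intro k hk
    rw [hr0, coeff_map, hc' k hk, map_zero]
  have hprod : (A - G0) * (A + G0) = r0 := by linear_combination h0
  have hsum : (A + G0).coeff n = 2 := by
    rw [coeff_add]
    have h1 : A.coeff n = 1 := by
      rw [← hAn]
      exact hAm
    have h2 : G0.coeff n = 1 := by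
      rw [← hG0n]
      exact hG0m
    rw [h1, h2]
    norm_num
  have hAG : A = G0 := by
    by_contra hne
    have h1 : A - G0 ≠ 0 := sub_ne_zero.2 hne
    have h2 : A + G0 ≠ 0 := fun h => by
      rw [h, coeff_zero] at hsum
      norm_num at hsum
    have h3 : n ≤ (A + G0).natDegree := le_natDegree_of_ne_zero (by rw [hsum]; norm_num)
    have h4 : r0 ≠ 0 := by
      rw [← hprod]
      exact mul_ne_zero h1 h2
    have h5 : r0.natDegree = (A - G0).natDegree + (A + G0).natDegree := by
      rw [← hprod, natDegree_mul h1 h2]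
    exact h4 (leadingCoeff_eq_zero.1 (hr0d _ (by omega)))
  have hr00 : r0 = 0 := by rw [← hprod, hAG, sub_self, zero_mul]
  refine ⟨fun j => G.coeff (j : ℕ), fun j => (F1 * F2 - G ^ 2).coeff (j : ℕ), hall, ?_, ?_⟩
  · intro j
    rw [hAG, hG0, coeff_map, coe_evalRingHom]
  · intro j
    have h1 : r0.coeff (j : ℕ) = 0 := by rw [hr00, coeff_zero]
    rw [hr0, coeff_map, coe_evalRingHom] at h1
    exact h1

end Pool.Agent.J4H19.TR
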