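import Pool.Agent.J4H20.TR.Stm

set_option autoImplicit false

/-! # Project TR2, (R4): scaling to integers -/

namespace Pool.Agent.J4H19.TR

open Polynomial Pool.Agent.J4H20.TR

/-- a rational number times a multiple of its denominator -/
theorem mul_int (q : ℚ) (d : ℕ) (h : q.den ∣ d) : ∃ z : ℤ, (z : ℚ) = d * q := by
  obtain ⟨e, rfl⟩ := h
  refine ⟨e * q.num, ?_⟩
  push_cast
  have h1 := Rat.den_mul_eq_num q
  linear_combination (-(e : ℚ)) * h1

theorem exists_den (s : Finset ℚ) : ∃ d : ℕ, 0 < d ∧ ∀ q ∈ s, q.den ∣ d := by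
  classical
  refine ⟨∏ q ∈ s, q.den, Finset.prod_pos fun q _ => q.pos, fun q hq => Finset.dvd_prod_of_mem _ hq⟩

/-- the scaled polynomial `d ^ m p(X / d)` -/
noncomputable def scl (d : ℚ) (m : ℕ) (p : ℚ[X]) : ℚ[X] := C (d ^ m) * p.comp (C d⁻¹ * X)

theorem scl_coeff (d : ℚ) (m : ℕ) (p : ℚ[X]) (j : ℕ) :
    (scl d m p).coeff j = d ^ m * (p.coeff j * d⁻¹ ^ j) := by
  rw [scl, coeff_C_mul, comp_C_mul_X_coeff]

theorem scl_int {d : ℕ} (hd : 0 < d) {m : ℕ} {p : ℚ[X]}
    (h : ∀ j, p.coeff j ≠ 0 → j ≤ m ∧ (j = m → p.coeff j = 1) ∧ (p.coeff j).den ∣ d) :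
    ∃ P : ℤ[X], P.map (algebraMap ℤ ℚ) = scl d m p := by
  have hd0 : (d : ℚ) ≠ 0 := by exact_mod_cast hd.ne'
  have h1 : scl d m p ∈ lifts (algebraMap ℤ ℚ) := by
    rw [lifts_iff_coeff_lifts]
    intro j
    rw [scl_coeff]
    by_cases h0 : p.coeff j = 0
    · exact ⟨0, by rw [h0, map_zero, zero_mul, mul_zero]⟩
    · obtain ⟨h2, h3, h4⟩ := h j h0
      rcases h2.eq_or_lt with h5 | h5
      · refine ⟨1, ?_⟩
        rw [h3 h5, h5, map_one, one_mul, ← mul_pow, mul_inv_cancel₀ hd0, one_pow]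
      · obtain ⟨e, rfl⟩ : ∃ e, m = j + 1 + e := ⟨m - (j + 1), by omega⟩
        obtain ⟨z, hz⟩ := mul_int (p.coeff j) d h4
        refine ⟨z * (d : ℤ) ^ e, ?_⟩
        rw [eq_intCast, Int.cast_mul, Int.cast_pow, hz, Int.cast_natCast]
        have h6 : (d : ℚ) ^ j * (d : ℚ)⁻¹ ^ j = 1 := by
          rw [← mul_pow, mul_inv_cancel₀ hd0, one_pow]
        calc (d : ℚ) * p.coeff j * (d : ℚ) ^ e
            = (d : ℚ) * p.coeff j * (d : ℚ) ^ e * ((d : ℚ) ^ j * (d : ℚ)⁻¹ ^ j) := by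
              rw [h6, mul_one]
          _ = (d : ℚ) ^ (j + 1 + e) * (p.coeff j * (d : ℚ)⁻¹ ^ j) := by
              rw [pow_add, pow_succ]
              ring
  obtain ⟨P, hP⟩ := (mem_lifts _).1 h1
  exact ⟨P, hP⟩

/-- (R4) -/
theorem t_R4 : S_R4 := by
  classical
  intro n k r₁ a g r α β hk ha hg hgn hr hf hα hαβ hcount
  obtain ⟨d, hd, hden⟩ := exists_den
    (Finset.univ.image a ∪ (g.support.image g.coeff ∪ r.support.image r.coeff))
  have hd0 : (d : ℚ) ≠ 0 := by exact_mod_cast hd.ne'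
  have hdR : (0 : ℝ) < d := by exact_mod_cast hd
  have hden1 : ∀ i, (a i).den ∣ d := fun i => hden _ (Finset.mem_union_left _
    (Finset.mem_image_of_mem a (Finset.mem_univ i)))
  have hden2 : ∀ j, g.coeff j ≠ 0 → (g.coeff j).den ∣ d := fun j hj => hden _
    (Finset.mem_union_right _ (Finset.mem_union_left _
      (Finset.mem_image_of_mem g.coeff (mem_support_iff.2 hj))))
  have hden3 : ∀ j, r.coeff j ≠ 0 → (r.coeff j).den ∣ d := fun j hj => hden _
    (Finset.mem_union_right _ (Finset.mem_union_right _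
      (Finset.mem_image_of_mem r.coeff (mem_support_iff.2 hj))))
  have hrc : ∀ j, r.coeff j ≠ 0 → j < n := by
    intro j hj
    by_contra h
    push Not at h
    exact hj (coeff_eq_zero_of_degree_lt (hr.trans_le (by exact_mod_cast h)))
  obtain ⟨G, hG⟩ := scl_int (m := n) (p := g) hd fun j hj => by
    refine ⟨?_, fun h => ?_, hden2 j hj⟩
    · rw [← hgn]
      exact le_natDegree_of_ne_zero hj
    · rw [h, ← hgn]
      exact hg
  obtain ⟨Q, hQ⟩ := scl_int (m := 2 * n) (p := r) hd fun j hj => by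
    have := hrc j hj
    exact ⟨by omega, fun h => by omega, hden3 j hj⟩
  choose b hb using fun i => mul_int (a i) d (hden1 i)
  have hinj : Function.Injective (algebraMap ℤ ℚ) := by
    intro x y h
    simpa using h
  have hGm : (scl d n g).coeff n = 1 := by
    rw [scl_coeff]
    have : g.coeff n = 1 := by
      rw [← hgn]
      exact hg
    rw [this, one_mul, ← mul_pow, mul_inv_cancel₀ hd0, one_pow]
  have hGc : ∀ j, n < j → (scl d n g).coeff j = 0 := by
    intro j hj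
    rw [scl_coeff, coeff_eq_zero_of_natDegree_lt (by omega), zero_mul, mul_zero]
  have hGn' : (scl d n g).natDegree = n :=
    natDegree_eq_of_le_of_coeff_ne_zero
      (natDegree_le_iff_coeff_eq_zero.2 fun j hj => hGc j hj) (by rw [hGm]; exact one_ne_zero)
  have hGn : G.natDegree = n := by
    rw [← natDegree_map_eq_of_injective hinj G, hG, hGn']
  have hGmon : G.Monic := by
    apply hinj.monic_map_iff.2
    rw [hG, Monic, leadingCoeff, hGn', hGm]
  have hQd : Q.degree < n := by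
    rw [degree_lt_iff_coeff_zero]
    intro j hj
    apply hinj
    rw [← coeff_map, hQ, scl_coeff, map_zero]
    have : r.coeff j = 0 := by
      by_contra h
      have := hrc j h
      omega
    rw [this, zero_mul, mul_zero]
  have hprod : ∏ i, (X - C (b i)) = G ^ 2 + Q := by
    apply map_injective _ hinj
    rw [Polynomial.map_prod, Polynomial.map_add, Polynomial.map_pow, hG, hQ]
    have e1 : ∀ i, (X - C (b i)).map (algebraMap ℤ ℚ)
        = C (d : ℚ) * (X - C (a i)).comp (C (d : ℚ)⁻¹ * X) := by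
      intro i
      rw [Polynomial.map_sub, map_X, map_C, sub_comp, X_comp, C_comp, eq_intCast, hb, mul_sub,
        ← mul_assoc, ← C_mul, ← C_mul, mul_inv_cancel₀ hd0, C_1, one_mul]
    have e2 : (C (d : ℚ) : ℚ[X]) ^ (k + 2) = C (d : ℚ) ^ (2 * n) := congrArg _ hk
    rw [Finset.prod_congr rfl fun i _ => e1 i, Finset.prod_mul_distrib, Finset.prod_const,
      Finset.card_univ, Fintype.card_fin, e2, ← prod_comp, hf, add_comp, pow_comp, scl, scl,
      mul_pow, ← C_pow, ← C_pow, ← pow_mul, mul_comm n 2, mul_add]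
  have hbinj : Function.Injective b := by
    intro i j hij
    apply ha
    have h1 := hb i
    rw [hij, hb j] at h1
    exact (mul_left_cancel₀ hd0 h1).symm
  let D : Dat2 n k :=
    { a := b
      g := G
      r := Q
      hk := hk
      ha := hbinj
      hg := hGmon
      hgn := hGn
      hr := hQd
      hf := hprod }
  have hev : ∀ (P : ℤ[X]) (p : ℚ[X]) (m : ℕ), P.map (algebraMap ℤ ℚ) = scl d m p → ∀ x : ℝ,
      aeval ((d : ℝ) * x) P = (d : ℝ) ^ m * aeval x p := by
    intro P p m hP x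
    rw [← aeval_map_algebraMap ℚ ((d : ℝ) * x) P, hP, scl, map_mul, aeval_C, aeval_comp, map_mul,
      aeval_C, aeval_X]
    have h1 : (algebraMap ℚ ℝ) (d : ℚ)⁻¹ * ((d : ℝ) * x) = x := by
      rw [map_inv₀, map_natCast, ← mul_assoc, inv_mul_cancel₀ hdR.ne', one_mul]
    rw [h1, map_pow, map_natCast]
  refine ⟨D, (d : ℝ) ^ n * α, (d : ℝ) ^ n * β, by positivity, by gcongr, fun σ h1 h2 => ?_⟩
  have hdn : (0 : ℝ) < (d : ℝ) ^ n := by positivity
  obtain ⟨τ, rfl⟩ : ∃ τ, σ = (d : ℝ) ^ n * τ := ⟨σ / (d : ℝ) ^ n, by field_simp⟩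
  have h3 := hcount τ (lt_of_mul_lt_mul_left h1 hdn.le) (lt_of_mul_lt_mul_left h2 hdn.le)
  rw [← h3, ← Set.ncard_image_of_injective {x : ℝ | 2 * τ * aeval x g + τ ^ 2 - aeval x r = 0}
    (mul_right_injective₀ hdR.ne')]
  congr 1
  ext x
  simp only [Set.mem_ofPred_eq, Set.mem_image]
  constructor
  · intro hx
    refine ⟨x / d, ?_, by field_simp⟩
    have e1 := hev G g n hG (x / d)
    have e2 := hev Q r (2 * n) hQ (x / d)
    have e3 : (d : ℝ) * (x / d) = x := by field_simp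
    rw [e3] at e1 e2
    have hx' : 2 * ((d : ℝ) ^ n * τ) * aeval x G + ((d : ℝ) ^ n * τ) ^ 2 - aeval x Q = 0 := hx
    rw [e1, e2] at hx'
    have h4 : (d : ℝ) ^ (2 * n) * (2 * τ * aeval (x / d) g + τ ^ 2 - aeval (x / d) r) = 0 := by
      rw [← hx', two_mul n, pow_add]
      ring
    exact (mul_eq_zero.1 h4).resolve_left (by positivity)
  · rintro ⟨y, hy, rfl⟩
    have e1 := hev G g n hG y
    have e2 := hev Q r (2 * n) hQ y
    show 2 * ((d : ℝ) ^ n * τ) * aeval ((d : ℝ) * y) G + ((d : ℝ) ^ n * τ) ^ 2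
      - aeval ((d : ℝ) * y) Q = 0
    rw [e1, e2, two_mul n, pow_add]
    linear_combination ((d : ℝ) ^ n * (d : ℝ) ^ n) * hy

end Pool.Agent.J4H19.TR
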